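import Pool.Agent.helper3.T6R.Spec

/-!
# Row t6r:RCC: the classes of `CC` have a small `Full`
-/

set_option autoImplicit false

namespace Pool.Agent.T6R

open Finset NumberField Pool.Agent.helper3.FT Pool.Agent.helper47.RA Pool.Agent.T5 Pool.Agent.T6
open scoped nonZeroDivisors

section
variable {K : Type} [Field K] [NumberField K]

theorem RCC_em (hREM : REM_stmt) (Q : QF K) (hD : 0 < Q.D) :
    (∀ a, emA Q (-a) = -emA Q a ∧ emB Q (-a) = -emB Q a) ∧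
    ∀ (n : ℕ) a, emA Q (n * a) = n * emA Q a ∧ emB Q (n * a) = n * emB Q a := by
  obtain ⟨⟨f, g, hf, hg⟩, -⟩ := hREM K Q hD
  refine ⟨fun a => ⟨?_, ?_⟩, fun n a => ⟨?_, ?_⟩⟩
  · rw [← hf, ← hf, map_neg]
  · rw [← hg, ← hg, map_neg]
  · rw [← hf, ← hf, map_mul, map_natCast]
  · rw [← hg, ← hg, map_mul, map_natCast]

theorem RCC_sz (hREM : REM_stmt) (Q : QF K) (hD : 0 < Q.D) {θ θ' : 𝓞 K} (h : θ' = θ ∨ θ' = -θ) :
    xA Q θ' = xA Q θ ∧ xB Q θ' = xB Q θ := by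
  obtain ⟨h1, -⟩ := RCC_em hREM Q hD
  rcases h with rfl | rfl
  · exact ⟨rfl, rfl⟩
  · unfold xA xB
    rw [(h1 θ).1, (h1 θ).2, abs_neg, abs_neg]
    exact ⟨rfl, rfl⟩

theorem RCC_qw (hREM : REM_stmt) (Q : QF K) (hD : 0 < Q.D) {β β' : 𝓞 K} (h : β' = β ∨ β' = -β) (u v : ℝ) :
    qw Q u v β' = qw Q u v β := by
  obtain ⟨h1, -⟩ := RCC_em hREM Q hD
  rcases h with rfl | rfl
  · rfl
  · unfold qw
    rw [(h1 β).1, (h1 β).2]
    ring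

end

/-- real numbers: the sizes -/
theorem RCC_num {P R U t s : ℝ} (hP : 0 < P) (hR : 0 < R) (hPU : P ≤ U) (hRU : R ≤ U) (ht : 0 ≤ t) (hU : U ≤ t ^ 2)
    (hs : t ^ 2 ≤ s) :
    P * √R ≤ t ^ 3 ∧ √P * R ≤ t ^ 3 ∧ P * √P * √R ≤ t ^ 4 ∧ √P * (R * √R) ≤ t ^ 4 ∧ 0 < s ∧ t ^ 3 ≤ t * s ∧ t ^ 4 ≤ t ^ 2 * s := by
  have hU0 : 0 < U := lt_of_lt_of_le hP hPU
  have hsP : √P ≤ t := by
    rw [← Real.sqrt_sq ht]
    exact Real.sqrt_le_sqrt (hPU.trans hU)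
  have hsR : √R ≤ t := by
    rw [← Real.sqrt_sq ht]
    exact Real.sqrt_le_sqrt (hRU.trans hU)
  have h0P := Real.sqrt_nonneg P
  have h0R := Real.sqrt_nonneg R
  have hP2 : P ≤ t ^ 2 := hPU.trans hU
  have hR2 : R ≤ t ^ 2 := hRU.trans hU
  have ht2 : 0 ≤ t ^ 2 := sq_nonneg t
  refine ⟨?_, ?_, ?_, ?_, ?_, ?_, ?_⟩
  · calc P * √R ≤ t ^ 2 * t := mul_le_mul hP2 hsR h0R ht2
      _ = t ^ 3 := by ring
  · calc √P * R ≤ t * t ^ 2 := mul_le_mul hsP hR2 hR.le ht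
      _ = t ^ 3 := by ring
  · calc P * √P * √R ≤ t ^ 2 * t * t := mul_le_mul (mul_le_mul hP2 hsP h0P ht2) hsR h0R (mul_nonneg ht2 ht)
      _ = t ^ 4 := by ring
  · calc √P * (R * √R) ≤ t * (t ^ 2 * t) := mul_le_mul hsP (mul_le_mul hR2 hsR h0R ht2) (mul_nonneg hR.le h0R) ht
      _ = t ^ 4 := by ring
  · linarith
  · calc t ^ 3 = t * t ^ 2 := by ring
      _ ≤ t * s := mul_le_mul_of_nonneg_left hs ht
  · calc t ^ 4 = t ^ 2 * t ^ 2 := by ring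
      _ ≤ t ^ 2 * s := mul_le_mul_of_nonneg_left hs ht2

theorem RCC (hREM : REM_stmt) (hRLB : RLB_stmt) (hRFU : RFU_stmt) (hRSZ : RSZ_stmt) (hRVV : RVV_stmt) : RCC_stmt := by
  intro K _ _ Q hD U T hU hT c hc
  obtain ⟨hc1, hc5, I, θ, hI, hprim, hθ, hsz, α, hα, hα0, hqf⟩ := hc
  obtain ⟨hneg, hmul⟩ := RCC_em hREM Q hD
  obtain ⟨-, -, -, -, -, hne, -⟩ := hREM K Q hD
  have hI0 : (I : Ideal (𝓞 K)) ≠ ⊥ := by
    intro h
    have := nonZeroDivisors.ne_zero I.2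
    exact this (by rw [h]; rfl)
  have hθ0 : θ ≠ 0 := by
    rintro rfl
    rw [Set.singleton_zero, Ideal.span_zero] at hθ
    have : (I : Ideal (𝓞 K)) ^ 5 ≠ ⊥ := pow_ne_zero 5 hI0
    exact this hθ.symm
  have hxA : 0 < xA Q θ := Real.rpow_pos_of_pos (abs_pos.2 (hne θ hθ0).1) _
  have hxB : 0 < xB Q θ := Real.rpow_pos_of_pos (abs_pos.2 (hne θ hθ0).2) _
  have hu : 0 < xA Q θ ^ 2 := by positivity
  have hv : 0 < xB Q θ ^ 2 := by positivity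
  obtain ⟨e₁, e₂, hbas, hmin, -⟩ := hRLB K Q hD ((I : Ideal (𝓞 K)) ^ 2) (pow_ne_zero 2 hI0) _ _ hu hv
  have hq1 : qf Q θ e₁ ≤ U := (hmin α hα hα0).trans hqf
  have hqpos : ∀ β : 𝓞 K, β ≠ 0 → 0 < qw Q (xA Q θ ^ 2) (xB Q θ ^ 2) β := by
    intro β hβ
    unfold qw
    have h1 : 0 < (emA Q β / xA Q θ ^ 2) ^ 2 := by
      have := (hne β hβ).1
      positivity
    have h2 : 0 ≤ (emB Q β / xB Q θ ^ 2) ^ 2 := sq_nonneg _
    linarith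
  -- the content
  have hcont : Pool.Agent.T5.Cont1 (I : Ideal (𝓞 K)) e₁ := by
    intro p hp hdvd
    have h1 : e₁ ∈ Ideal.span {(p : 𝓞 K)} * (I : Ideal (𝓞 K)) ^ 2 :=
      Ideal.le_of_dvd hdvd (Ideal.mem_span_singleton_self e₁)
    rw [Ideal.mem_span_singleton_mul] at h1
    obtain ⟨β, hβ, hβe⟩ := h1
    have hβ0 : β ≠ 0 := by
      rintro rfl
      rw [mul_zero] at hβe
      exact hbas.ne hβe.symm
    have h2 := hmin β hβ hβ0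
    have h3 : qw Q (xA Q θ ^ 2) (xB Q θ ^ 2) e₁ = (p : ℝ) ^ 2 * qw Q (xA Q θ ^ 2) (xB Q θ ^ 2) β := by
      unfold qw
      rw [← hβe, (hmul p β).1, (hmul p β).2]
      ring
    have h4 := hqpos β hβ0
    have h5 : (2 : ℝ) ≤ p := by exact_mod_cast hp.two_le
    rw [h3] at h2
    have h2' : (p : ℝ) ^ 2 * qw Q (xA Q θ ^ 2) (xB Q θ ^ 2) β ≤ qw Q (xA Q θ ^ 2) (xB Q θ ^ 2) β := h2
    have h6 : (4 : ℝ) ≤ (p : ℝ) ^ 2 := by nlinarith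
    have h7 := mul_le_mul_of_nonneg_right h6 h4.le
    linarith
  obtain ⟨F, hFa, hFβ, hFα, -, -⟩ := hRFU K Q (I : Ideal (𝓞 K)) θ e₁ hprim hI0 hθ hbas.ne hbas.m1 hcont
  obtain ⟨⟨-, -, -, hP, hR⟩, ⟨y1, y2, y3, y4⟩, ⟨z1, z2⟩, ⟨v1, v2⟩, -⟩ := hRSZ K Q hD F
  obtain ⟨hA, hB⟩ := RCC_sz hREM Q hD hFα
  have hPU : sz Q F.α ≤ U := by
    have e : sz Q F.α = sz Q θ := by
      unfold sz
      rw [hA, hB]
    rw [e]
    exact hsz
  have hRU : qf Q F.α F.β ≤ U := by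
    have e : qf Q F.α F.β = qf Q θ e₁ := by
      unfold qf
      rw [hA, hB]
      exact RCC_qw hREM Q hD hFβ _ _
    rw [e]
    exact hq1
  obtain ⟨n1, n2, n3, n4, n5, n6, n7⟩ := RCC_num hP hR hPU hRU (Nat.cast_nonneg T) hU hT
  refine ⟨F, ?_, ?_⟩
  · have key : ∀ (y : ℤ) (k : ℕ) (x : ℝ), |(y : ℝ)| * √(Q.D : ℝ) ≤ x → x ≤ (T : ℝ) ^ k * √(Q.D : ℝ) → |y| ≤ (T : ℤ) ^ k := by
      intro y k x h1 h2
      have h3 := le_of_mul_le_mul_right (h1.trans h2) n5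
      exact_mod_cast h3
    have key1 : ∀ (y : ℤ) (x : ℝ), |(y : ℝ)| * √(Q.D : ℝ) ≤ x → x ≤ (T : ℝ) * √(Q.D : ℝ) → |y| ≤ (T : ℤ) := by
      intro y x h1 h2
      have h3 := le_of_mul_le_mul_right (h1.trans h2) n5
      exact_mod_cast h3
    have key2 : ∀ (y : ℤ) (x : ℝ), |(y : ℝ)| ≤ x → x ≤ U → |y| ≤ (T : ℤ) ^ 2 := by
      intro y x h1 h2
      have h3 := (h1.trans h2).trans hU
      exact_mod_cast h3
    exact
      { bn := key1 _ _ y1 (n1.trans n6)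
        bk := key1 _ _ y2 (n2.trans n6)
        bm := key _ 2 _ y3 (n3.trans n7)
        bg := key _ 2 _ y4 (n4.trans n7)
        bZ := key2 _ _ z1 hPU
        bΛ := key2 _ _ z2 hRU
        bβ := ((hRVV K Q hD F.β).trans v1).trans n1
        bγ := ((hRVV K Q hD F.γ).trans v2).trans n2 }
  · have hmem : F.a ∈ nonZeroDivisors (Ideal (𝓞 K)) := by
      rw [hFa]
      exact I.2
    refine ⟨hmem, ?_⟩
    rw [← hI]
    congr 1
    exact Subtype.ext hFa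

end Pool.Agent.T6R
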